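import Mathlib

set_option autoImplicit false

/-!
# Veto interval graphs of every chromatic number

The shift graph on the pairs `i < j` of `{0, ..., N - 1}` (where `(i, j)` and `(j, k)` are adjacent)
is a veto interval graph: represent `(i, j)` by the veto interval `(3 i, 3 j - 1, 3 j + 1)`.
-/

namespace Pool.Agent.Results.MP_2fc053_co.AllChromaticNumbers

/-- A veto interval: a closed interval `[l, r]` of the real line with an interior point `v`, its
veto mark. -/
structure VetoInterval where
  /-- left endpoint -/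
  l : ℝ
  /-- veto mark -/
  v : ℝ
  /-- right endpoint -/
  r : ℝ
  l_lt_v : l < v
  v_lt_r : v < r

/-- The adjacency condition for two veto intervals `a` and `b`:
`a_v < b_l < a_r < b_v` or `b_v < a_l < b_r < a_v`. -/
def VetoAdj (a b : VetoInterval) : Prop :=
  (a.v < b.l ∧ b.l < a.r ∧ a.r < b.v) ∨ (b.v < a.l ∧ a.l < b.r ∧ b.r < a.v)

/-- `G` is a veto interval graph: there is an injective assignment of veto intervals to the vertices
such that two distinct vertices are adjacent exactly when their veto intervals satisfy the adjacency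
condition `VetoAdj`. -/
def IsVetoIntervalGraph {V : Type} (G : SimpleGraph V) : Prop :=
  ∃ I : V → VetoInterval, Function.Injective I ∧
    ∀ a b : V, a ≠ b → (G.Adj a b ↔ VetoAdj (I a) (I b))

/-- the vertex set of the shift graph -/
abbrev SV (N : ℕ) : Type := {p : Fin N × Fin N // p.1 < p.2}

/-- the shift graph -/
def shiftG (N : ℕ) : SimpleGraph (SV N) where
  Adj p q := p.1.2 = q.1.1 ∨ q.1.2 = p.1.1
  symm := ⟨fun p q h => h.symm⟩
  loopless := ⟨fun p h => by
    rcases h with h | h
    · exact absurd h.symm (ne_of_lt p.2)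
    · exact absurd h.symm (ne_of_lt p.2)⟩

/-- the representation -/
noncomputable def rep (N : ℕ) (p : SV N) : VetoInterval where
  l := 3 * ((p.1.1 : ℕ) : ℝ)
  v := 3 * ((p.1.2 : ℕ) : ℝ) - 1
  r := 3 * ((p.1.2 : ℕ) : ℝ) + 1
  l_lt_v := by
    have h : ((p.1.1 : ℕ)) + 1 ≤ (p.1.2 : ℕ) := p.2
    have h' : ((p.1.1 : ℕ) : ℝ) + 1 ≤ ((p.1.2 : ℕ) : ℝ) := by exact_mod_cast h
    linarith
  v_lt_r := by linarith

theorem key {b c d : ℕ} (hcd : c < d) :
    ((3 * (b : ℝ) - 1 < 3 * (c : ℝ) ∧ 3 * (c : ℝ) < 3 * (b : ℝ) + 1 ∧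
      3 * (b : ℝ) + 1 < 3 * (d : ℝ) - 1)) ↔ b = c := by
  constructor
  · rintro ⟨h1, h2, -⟩
    have h1' : (3 * (b : ℤ) - 1 : ℤ) < 3 * (c : ℤ) := by exact_mod_cast h1
    have h2' : (3 * (c : ℤ) : ℤ) < 3 * (b : ℤ) + 1 := by exact_mod_cast h2
    omega
  · rintro rfl
    have h : (b : ℝ) + 1 ≤ (d : ℝ) := by exact_mod_cast hcd
    refine ⟨by linarith, by linarith, by linarith⟩

theorem shift_veto (N : ℕ) : IsVetoIntervalGraph (shiftG N) := by
  refine ⟨rep N, ?_, ?_⟩
  · intro p q h
    have hl : (rep N p).l = (rep N q).l := by rw [h]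
    have hr : (rep N p).r = (rep N q).r := by rw [h]
    simp only [rep] at hl hr
    have hl' : ((p.1.1 : ℕ) : ℝ) = ((q.1.1 : ℕ) : ℝ) := by linarith
    have hr' : ((p.1.2 : ℕ) : ℝ) = ((q.1.2 : ℕ) : ℝ) := by linarith
    have hl'' : (p.1.1 : ℕ) = (q.1.1 : ℕ) := by exact_mod_cast hl'
    have hr'' : (p.1.2 : ℕ) = (q.1.2 : ℕ) := by exact_mod_cast hr'
    exact Subtype.ext (Prod.ext (Fin.ext hl'') (Fin.ext hr''))
  · intro p q _
    have h1 := key (b := (p.1.2 : ℕ)) (c := (q.1.1 : ℕ)) (d := (q.1.2 : ℕ)) q.2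
    have h2 := key (b := (q.1.2 : ℕ)) (c := (p.1.1 : ℕ)) (d := (p.1.2 : ℕ)) p.2
    unfold VetoAdj
    simp only [rep]
    rw [h1, h2, Fin.val_inj, Fin.val_inj]
    rfl

/-- a proper colouring with `k` colours gives an injection of the ground set into the subsets of the
set of colours -/
theorem shift_lower {N k : ℕ} (h : (shiftG N).Colorable k) : N ≤ 2 ^ k := by
  classical
  obtain ⟨c⟩ := h
  let S : Fin N → Finset (Fin k) := fun i =>
    Finset.univ.filter (fun t => ∃ p : SV N, p.1.1 = i ∧ c p = t)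
  have hinj : Function.Injective S := by
    intro i j hij
    by_contra hne
    wlog hlt : i < j generalizing i j
    · exact this hij.symm (Ne.symm hne) (lt_of_le_of_ne (not_lt.mp hlt) (Ne.symm hne))
    have hm : c (⟨(i, j), hlt⟩ : SV N) ∈ S i := by
      simp only [S, Finset.mem_filter, Finset.mem_univ, true_and]
      exact ⟨⟨(i, j), hlt⟩, rfl, rfl⟩
    rw [hij] at hm
    simp only [S, Finset.mem_filter, Finset.mem_univ, true_and] at hm
    obtain ⟨p, hp, hc⟩ := hm
    have hadj : (shiftG N).Adj (⟨(i, j), hlt⟩ : SV N) p := Or.inl hp.symm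
    exact c.valid hadj hc.symm
  have := Fintype.card_le_of_injective S hinj
  simpa using this

/-- the shift graph on at most `2 ^ k` points has a proper colouring with `k` colours -/
theorem shift_upper {N k : ℕ} (h : N ≤ 2 ^ k) : (shiftG N).Colorable k := by
  classical
  have hbit : ∀ p : SV N, ∃ t : Fin k,
      (p.1.1 : ℕ).testBit t = false ∧ (p.1.2 : ℕ).testBit t = true := by
    intro p
    by_contra hcon
    push Not at hcon
    have hlt : (p.1.1 : ℕ) < (p.1.2 : ℕ) := p.2
    have hand : (p.1.2 : ℕ) &&& (p.1.1 : ℕ) = (p.1.2 : ℕ) := by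
      apply Nat.eq_of_testBit_eq
      intro t
      rw [Nat.testBit_and]
      by_cases ht : t < k
      · have h1 := hcon ⟨t, ht⟩
        simp only at h1
        cases hb : (p.1.1 : ℕ).testBit t
        · have h2 := h1 hb
          simpa using h2
        · simp
      · push Not at ht
        have h3 : (p.1.2 : ℕ) < 2 ^ t :=
          lt_of_lt_of_le p.1.2.2 (h.trans (Nat.pow_le_pow_right (by norm_num) ht))
        rw [Nat.testBit_lt_two_pow h3]
        simp
    have hle : (p.1.2 : ℕ) &&& (p.1.1 : ℕ) ≤ (p.1.1 : ℕ) := Nat.and_le_right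
    omega
  choose c hc1 hc2 using hbit
  refine ⟨SimpleGraph.Coloring.mk c ?_⟩
  intro p q hpq heq
  rcases hpq with h | h
  · have h1 := hc2 p
    have h2 := hc1 q
    rw [h, heq, h2] at h1
    exact absurd h1 (by decide)
  · have h1 := hc2 q
    have h2 := hc1 p
    rw [h, ← heq, h2] at h1
    exact absurd h1 (by decide)

/-- For every natural number `k` there is a finite veto interval graph of chromatic number `k`. -/
theorem result : ∀ k : ℕ, ∃ (V : Type) (_ : Finite V) (G : SimpleGraph V),
    IsVetoIntervalGraph G ∧ G.chromaticNumber = k := by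
  intro k
  rcases Nat.eq_zero_or_pos k with rfl | hk
  · refine ⟨SV 0, inferInstance, shiftG 0, shift_veto 0, ?_⟩
    have : (shiftG 0).Colorable 0 := shift_upper (by norm_num)
    have := this.chromaticNumber_le
    simp at this ⊢
  · refine ⟨SV (2 ^ (k - 1) + 1), inferInstance, shiftG _, shift_veto _, ?_⟩
    have hpow : 2 ^ k = 2 ^ (k - 1) + 2 ^ (k - 1) := by
      obtain ⟨m, rfl⟩ : ∃ m, k = m + 1 := ⟨k - 1, by omega⟩
      simp [pow_succ, mul_two]
    have hpos : 0 < 2 ^ (k - 1) := by positivity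
    have hcol : (shiftG (2 ^ (k - 1) + 1)).Colorable k := shift_upper (by omega)
    apply le_antisymm hcol.chromaticNumber_le
    apply SimpleGraph.le_chromaticNumber_iff_colorable.mpr
    intro m hm
    have h1 := shift_lower hm
    by_contra hlt
    push Not at hlt
    have hmk : m ≤ k - 1 := by
      have : m < k := by exact_mod_cast hlt
      omega
    have h2 : 2 ^ m ≤ 2 ^ (k - 1) := Nat.pow_le_pow_right (by norm_num) hmk
    omega

end Pool.Agent.Results.MP_2fc053_co.AllChromaticNumbers
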